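import Mathlib
import Pool.Agent.H596R2.TM.Exp

/-!
# A Turing-complete set for `EXP` which is not Turing-mitotic

Languages are functions `List Bool → Bool`; machines are Mathlib's `Turing.FinTM2` machines.
The notions used are defined in `Pool.Agent.H596R2.TM.Notions`:

* `InP`, `InEXP`: decidable by a machine in time `n ^ c + c`, in time `2 ^ (n ^ c + c)`;
* `TuringReduces A B` (`A ≤_T^p B`): polynomially many adaptive queries to `B`, the next query
  being computed in polynomial time from the input and the answers obtained so far, the decision
  from the input and all answers;
* `CompleteEXP A`: `A` is in `EXP` and every language of `EXP` is `≤_T^p`-reducible to `A`;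
* `Mitotic A`: for some `S` in `P`, `A ≡_T^p A ∩ S ≡_T^p A ∩ Sᶜ`.

Construction.  There is an infinite sequence of bits; its block number `s` consists of the bits
`s ^ 2, ..., (s + 1) ^ 2 - 1`.  Let `w_s` be the string of its first `s ^ 2` bits.  The language
`A` contains the bits of block `s` at the `2 s + 1` addresses `(s, w_s, j)`, and a coding zone: for
every string `x` of length `s` the address `(s, w_s, x)` belongs to `A` if and only if `x` belongs
to a universal language of `EXP`.  Starting with `w_0`, which is empty, a polynomial-time machine
with oracle `A` finds `w_1, w_2, ...` one after the other and then reads the coding zone; so `A` is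
complete.  Given `S` in `P` and `s`, at least `s + 1` of the addresses of the bits of block `s`
are in `S`, or at least `s + 1` of them are outside `S`.  In the first case (the second one is
symmetric) let the bits with address outside `S` be zero, and consider the computation of the
given reduction to `A ∩ Sᶜ` on the first of the addresses in `S`.  It does not depend on the bits
with address in `S` as long as it does not ask a query about a string extending `w_{s+1}`; as it
asks fewer than `2 ^ s` queries, the hidden bits can be chosen such that it does not, and such
that the answer of the reduction is wrong.
-/

set_option autoImplicit false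

namespace Pool.Agent.Results.MP_6b6c7c_lc.NotMitotic

open Pool.Agent.H596R2.TM

/-- There is a `≤_T^p`-complete set `A` for `EXP` which is not `≤_T^p`-mitotic; indeed, for no
`S` in `P` both `A ≤_T^p A ∩ S` and `A ≤_T^p A ∩ Sᶜ`. -/
theorem result : ∃ A : List Bool → Bool, CompleteEXP A ∧ ¬ Mitotic A ∧
    ∀ S : List Bool → Bool, InP S →
      ¬ (TuringReduces A (fun x => A x && S x) ∧ TuringReduces A (fun x => A x && !S x)) :=
  ⟨AA, complete, not_mitotic, fun S hS h => not_both S hS h.1 h.2⟩

end Pool.Agent.Results.MP_6b6c7c_lc.NotMitotic
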